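import Pool.Agent.U918.LP.Core

/-!
# Representations `n = f(p₁) + p₂` for almost all `n`, with arbitrary weights on the `p₁`

Let `f(x) = x² + b x + c` be a monic quadratic polynomial and let `w` be ANY bounded real weight on the primes `p`, for
example the indicator of an arbitrary set of primes. For all but a share `log ^ (-U) X` of the integers
`1 ≤ n ≤ B X²`, the sum of `w p` over the primes `|b| < p ≤ y` for which `n - f(p)` is prime is the sum of
`w p / (V z log (n - f(p)))` over the primes `|b| < p ≤ y` for which `n - f(p)` is free of primes `≤ z`, up to an error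
`X / log ^ D X`, simultaneously for all `y ≤ X` and all residue classes of `p` to all moduli up to `log ^ K X`; here
`z` is a power of `log X` and `V z = ∏_{l ≤ z} (1 - 1/l)`.
-/

set_option autoImplicit false

open Finset

namespace Pool.Agent.Results.MP_d9bc60_nt.AlmostAllN

/-- the product of `1 - 1/l` over the primes `l ≤ z` -/
noncomputable def V (z : ℕ) : ℝ := ∏ l ∈ (Icc 1 z).filter Nat.Prime, (1 - 1 / (l : ℝ))

/-- `n - f(p)` for `f(x) = x² + b x + c` (and `0` if this is negative) -/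
def diff (b c : ℤ) (n p : ℕ) : ℕ := ((n : ℤ) - ((p : ℤ) ^ 2 + b * p + c)).toNat

open Classical in
/-- the sum of `w p` over the primes `|b| < p ≤ y`, `p ≡ a mod q`, for which `n - f(p)` is prime -/
noncomputable def primeSum (b c : ℤ) (w : ℕ → ℝ) (n q a y : ℕ) : ℝ :=
  ∑ p ∈ (Icc 1 y).filter (fun p => (p.Prime ∧ b.natAbs < p) ∧ p ≡ a [MOD q] ∧ (diff b c n p).Prime), w p

open Classical in
/-- the sum of `w p / (V z · log (n - f(p)))` over the primes `|b| < p ≤ y`, `p ≡ a mod q`, for which `n - f(p)` is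
divisible by no prime `l ≤ z` -/
noncomputable def modelSum (b c : ℤ) (z : ℕ) (w : ℕ → ℝ) (n q a y : ℕ) : ℝ :=
  ∑ p ∈ (Icc 1 y).filter (fun p => (p.Prime ∧ b.natAbs < p) ∧ p ≡ a [MOD q] ∧
    ∀ l : ℕ, l.Prime → l ≤ z → ¬ l ∣ diff b c n p), w p * (V z * Real.log (diff b c n p))⁻¹

/-- the shift of the argument -/
def sh (b : ℤ) : ℕ := if 0 ≤ b then 0 else b.natAbs

theorem sh_le (b : ℤ) : sh b ≤ b.natAbs := by
  unfold sh
  split_ifs <;> omega

theorem quad_sh (b : ℤ) (s : ℕ) : ((s + sh b : ℕ) : ℤ) ^ 2 + b * ((s + sh b : ℕ) : ℤ) = ((s ^ 2 + b.natAbs * s : ℕ) : ℤ) := by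
  unfold sh
  split_ifs with hb
  · push_cast
    rw [abs_of_nonneg hb]
    ring
  · push Not at hb
    push_cast
    rw [abs_of_neg hb]
    ring

theorem diff_sh (b c : ℤ) (n s h : ℕ) (hh : (h : ℤ) = n - c) :
    diff b c n (s + sh b) = Pool.Agent.U918.LP.va false (fun m => m ^ 2 + b.natAbs * m) s h := by
  have h1 := quad_sh b s
  unfold diff Pool.Agent.U918.LP.va
  simp only [Bool.false_eq_true, if_false]
  rw [h1]
  omega

theorem reindex (b : ℤ) (Q : ℕ → Prop) [DecidablePred Q] [DecidablePred fun s => Q (s + sh b)] (g : ℕ → ℝ) (y : ℕ)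
    (hQ : ∀ m, Q m → b.natAbs < m) :
    ∑ m ∈ (Icc 1 y).filter Q, g m = ∑ s ∈ (Icc 1 (y - sh b)).filter (fun s => Q (s + sh b)), g (s + sh b) := by
  have hsh := sh_le b
  refine sum_bij' (fun m _ => m - sh b) (fun s _ => s + sh b) ?_ ?_ ?_ ?_ ?_
  · intro m hm
    rw [mem_filter, mem_Icc] at hm ⊢
    have h1 := hQ m hm.2
    have h2 : m - sh b + sh b = m := by omega
    rw [h2]
    exact ⟨by omega, hm.2⟩
  · intro s hs
    rw [mem_filter, mem_Icc] at hs ⊢
    exact ⟨by omega, hs.2⟩
  · intro m hm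
    rw [mem_filter, mem_Icc] at hm
    have h1 := hQ m hm.2
    omega
  · intro s _
    omega
  · intro m hm
    rw [mem_filter, mem_Icc] at hm
    have h1 := hQ m hm.2
    have h2 : m - sh b + sh b = m := by omega
    rw [h2]

theorem modEq_sh (b : ℤ) (s q a : ℕ) (hq : 1 ≤ q) : s + sh b ≡ a [MOD q] ↔ s ≡ a + (q - 1) * sh b [MOD q] := by
  obtain ⟨k, rfl⟩ : ∃ k, q = k + 1 := ⟨q - 1, by omega⟩
  have h1 : a + (k + 1) * sh b ≡ a [MOD (k + 1)] := by
    simp
  rw [Nat.add_sub_cancel]
  constructor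
  · intro h
    have h2 : s + sh b ≡ (a + k * sh b) + sh b [MOD (k + 1)] := by
      have e : (a + k * sh b) + sh b = a + (k + 1) * sh b := by ring
      rw [e]
      exact h.trans h1.symm
    exact Nat.ModEq.add_right_cancel' (sh b) h2
  · intro h
    have h2 := Nat.ModEq.add_right (sh b) h
    have e : (a + k * sh b) + sh b = a + (k + 1) * sh b := by ring
    rw [e] at h2
    exact h2.trans h1

open Classical in
/-- **The theorem.** For all integers `b`, `c` and all `B`, `U`, `D`, `K` there is `B₀` such that for every `E`, every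
large `X`, every integer `z` with `log ^ B₀ X ≤ z ≤ log ^ E X` and EVERY weight `w` with `|w p| ≤ 1`: for all but at
most `X² / log ^ U X` of the integers `1 ≤ n ≤ B X²`, one has for all `y ≤ X`, all moduli `1 ≤ q ≤ log ^ K X` and all
classes `a` that `primeSum b c w n q a y` and `modelSum b c z w n q a y` differ by at most `X / log ^ D X`. -/
theorem result (b c : ℤ) (B U D K : ℕ) :
    ∃ B₀ : ℕ, ∀ E : ℕ, ∃ X₀ : ℕ, ∀ X : ℕ, X₀ ≤ X → ∀ z : ℕ, Real.log X ^ B₀ ≤ z → (z : ℝ) ≤ Real.log X ^ E →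
    ∀ w : ℕ → ℝ, (∀ p, |w p| ≤ 1) →
    (((Icc 1 (B * X ^ 2)).filter (fun n =>
      ∃ y ≤ X, ∃ q a : ℕ, 1 ≤ q ∧ (q : ℝ) ≤ Real.log X ^ K ∧
        (X : ℝ) / Real.log X ^ D < |primeSum b c w n q a y - modelSum b c z w n q a y|)).card : ℝ) ≤
      (X : ℝ) ^ 2 / Real.log X ^ U := by
  have hdeg : (Polynomial.X ^ 2 + Polynomial.C (b.natAbs : ℤ) * Polynomial.X : Polynomial ℤ).natDegree = 2 := by
    compute_degree!
  obtain ⟨B₀, h0⟩ := Pool.Agent.U918.LP.core 1
    (fun _ => (Polynomial.X ^ 2 + Polynomial.C (b.natAbs : ℤ) * Polynomial.X : Polynomial ℤ))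
    (fun _ => by rw [hdeg]; norm_num) (fun _ => by
      rw [Polynomial.leadingCoeff, hdeg, Polynomial.coeff_add, Polynomial.coeff_X_pow, Polynomial.coeff_C_mul,
        Polynomial.coeff_X]
      norm_num)
    (fun _ m => m ^ 2 + b.natAbs * m) (fun _ m => by
      rw [Polynomial.eval_add, Polynomial.eval_pow, Polynomial.eval_X, Polynomial.eval_mul, Polynomial.eval_C,
        Polynomial.eval_X]
      push_cast
      ring) (fun _ u v huv => by dsimp only; gcongr) (fun _ => false)
    (B + 1) (U + 1) D K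
  refine ⟨B₀, fun E => ?_⟩
  obtain ⟨x0, hx0⟩ := h0 E
  obtain ⟨x1, hx1⟩ := Pool.Agent.H373R2.T7.ev_L' 2
  obtain ⟨x2, hx2⟩ := Pool.Agent.H373R2.T7.ev_log' (U + 1) (c.natAbs + 1)
  refine ⟨max (max x0 (c.natAbs + 1)) (max x1 x2), fun X hX z hz1 hz2 w hw => ?_⟩
  have b0 : x0 ≤ X := ((le_max_left _ _).trans (le_max_left _ _)).trans hX
  have bc : c.natAbs + 1 ≤ X := ((le_max_right _ _).trans (le_max_left _ _)).trans hX
  have b1 : x1 ≤ X := ((le_max_left _ _).trans (le_max_right _ _)).trans hX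
  have b2 : x2 ≤ X := ((le_max_right _ _).trans (le_max_right _ _)).trans hX
  have hL := hx1 X b1
  have hL2 := hx2 X b2
  have key := hx0 X b0 z hz1 hz2 (fun s => if (s + sh b).Prime ∧ b.natAbs < s + sh b then w (s + sh b) else 0)
    (fun s => by
      split_ifs
      · exact hw _
      · simp)
  simp only [hdeg] at key
  rw [prod_const, card_univ, Fintype.card_fin, pow_one] at key
  -- the two sums
  have e1 : ∀ (n h q a y : ℕ), (h : ℤ) = n - c → 1 ≤ q → primeSum b c w n q a y = Pool.Agent.U918.LP.PS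
      (fun _ : Fin 1 => false) (fun _ m => m ^ 2 + b.natAbs * m)
      (fun s => if (s + sh b).Prime ∧ b.natAbs < s + sh b then w (s + sh b) else 0) (fun _ => h) q
      (a + (q - 1) * sh b) (y - sh b) := by
    intro n h q a y hh hq
    unfold primeSum Pool.Agent.U918.LP.PS
    rw [reindex b _ w y (fun m hm => hm.1.2), ← sum_filter, filter_filter]
    apply sum_congr _ (fun _ _ => rfl)
    apply filter_congr
    intro s _
    rw [diff_sh b c n s h hh, modEq_sh b s q a hq]
    simp only [forall_const]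
    tauto
  have e2 : ∀ (n h q a y : ℕ), (h : ℤ) = n - c → 1 ≤ q → modelSum b c z w n q a y = Pool.Agent.U918.LP.MS
      (fun _ : Fin 1 => false) (fun _ m => m ^ 2 + b.natAbs * m) z
      (fun s => if (s + sh b).Prime ∧ b.natAbs < s + sh b then w (s + sh b) else 0) (fun _ => h) q
      (a + (q - 1) * sh b) (y - sh b) := by
    intro n h q a y hh hq
    unfold modelSum Pool.Agent.U918.LP.MS
    rw [reindex b _ (fun p => w p * (V z * Real.log (diff b c n p))⁻¹) y (fun m hm => hm.1.2)]
    simp only [ite_mul, zero_mul]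
    rw [← sum_filter, filter_filter]
    apply sum_congr
    · apply filter_congr
      intro s _
      rw [diff_sh b c n s h hh, modEq_sh b s q a hq]
      simp only [forall_const]
      tauto
    · intro s _
      rw [diff_sh b c n s h hh, univ_unique, prod_singleton]
      rfl
  -- counting
  set Bad := (Icc 1 (B * X ^ 2)).filter (fun n =>
      ∃ y ≤ X, ∃ q a : ℕ, 1 ≤ q ∧ (q : ℝ) ≤ Real.log X ^ K ∧
        (X : ℝ) / Real.log X ^ D < |primeSum b c w n q a y - modelSum b c z w n q a y|) with hBad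
  set Big := (Fintype.piFinset (fun _ : Fin 1 => Icc 1 ((B + 1) * X ^ 2))).filter (fun h =>
      ∃ y ≤ X, ∃ q a : ℕ, 1 ≤ q ∧ (q : ℝ) ≤ Real.log X ^ K ∧
        (X : ℝ) / Real.log X ^ D < |Pool.Agent.U918.LP.PS (fun _ : Fin 1 => false) (fun _ m => m ^ 2 + b.natAbs * m)
          (fun s => if (s + sh b).Prime ∧ b.natAbs < s + sh b then w (s + sh b) else 0) h q a y -
          Pool.Agent.U918.LP.MS (fun _ : Fin 1 => false) (fun _ m => m ^ 2 + b.natAbs * m) z
          (fun s => if (s + sh b).Prime ∧ b.natAbs < s + sh b then w (s + sh b) else 0) h q a y|) with hBig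
  have c1 : Bad.card ≤ c.natAbs + Big.card := by
    have h1 : Bad ⊆ (Icc 1 c.natAbs) ∪ Bad.filter (fun n : ℕ => c < (n : ℤ)) := by
      intro n hn
      rw [mem_union, mem_filter, mem_Icc]
      rcases lt_or_ge c (n : ℤ) with h | h
      · exact Or.inr ⟨hn, h⟩
      · left
        rw [hBad, mem_filter, mem_Icc] at hn
        omega
    have h2 : (Bad.filter (fun n : ℕ => c < (n : ℤ))).card ≤ Big.card := by
      apply card_le_card_of_injOn (fun (n : ℕ) (_ : Fin 1) => ((n : ℤ) - c).toNat)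
      · intro n hn
        rw [mem_coe, mem_filter, hBad, mem_filter, mem_Icc] at hn
        obtain ⟨⟨⟨hn1, hn2⟩, y, hy, q, a, hq1, hq2, hlt⟩, hnc⟩ := hn
        have hh : ((((n : ℤ) - c).toNat : ℕ) : ℤ) = n - c := Int.toNat_of_nonneg (by omega)
        rw [mem_coe, hBig, mem_filter, Fintype.mem_piFinset]
        refine ⟨fun _ => ?_, y - sh b, (Nat.sub_le _ _).trans hy, q, a + (q - 1) * sh b, hq1, hq2, ?_⟩
        · rw [mem_Icc]
          have hX2 : c.natAbs ≤ X ^ 2 := by nlinarith
          have e : (B + 1) * X ^ 2 = B * X ^ 2 + X ^ 2 := by ring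
          rw [e]
          generalize X ^ 2 = Y at hn2 hX2 ⊢
          generalize B * Y = Z at hn2 ⊢
          show 1 ≤ ((n : ℤ) - c).toNat ∧ ((n : ℤ) - c).toNat ≤ Z + Y
          constructor <;> omega
        · rw [← e1 n _ q a y hh hq1, ← e2 n _ q a y hh hq1]
          exact hlt
      · intro n hn n' hn' hnn
        rw [mem_coe, mem_filter] at hn hn'
        have h3 := congrFun hnn 0
        simp only at h3
        omega
    have h3 := (card_le_card h1).trans (card_union_le _ _)
    rw [Nat.card_Icc, Nat.add_sub_cancel] at h3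
    omega
  have hL0 : 0 < Real.log X := by linarith
  have hXr : (1 : ℝ) ≤ X := by exact_mod_cast (by omega : 1 ≤ X)
  have c2 : (c.natAbs : ℝ) ≤ (X : ℝ) ^ 2 / Real.log X ^ (U + 1) := by
    rw [le_div_iff₀ (by positivity)]
    have h1 : √(X : ℝ) ≤ X := Real.sqrt_le_iff.2 ⟨by linarith, by nlinarith⟩
    have h2 : (X : ℝ) ≤ X ^ 2 := by nlinarith
    have h3 : (c.natAbs : ℝ) * Real.log X ^ (U + 1) ≤ (c.natAbs + 1) * Real.log X ^ (U + 1) :=
      mul_le_mul_of_nonneg_right (by linarith) (by positivity)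
    exact h3.trans (hL2.trans (h1.trans h2))
  have c3 : (Bad.card : ℝ) ≤ c.natAbs + Big.card := by exact_mod_cast c1
  have e : (X : ℝ) ^ 2 / Real.log X ^ U = (X : ℝ) ^ 2 / Real.log X ^ (U + 1) * Real.log X := by
    rw [pow_succ (Real.log X) U]
    field_simp
  rw [e]
  have h5 : (0 : ℝ) ≤ (X : ℝ) ^ 2 / Real.log X ^ (U + 1) := by positivity
  have h6 := mul_le_mul_of_nonneg_left hL h5
  linarith

end Pool.Agent.Results.MP_d9bc60_nt.AlmostAllN
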