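import Pool.Agent.U215.Gold.Main
import Pool.Agent.TH882.J5

/-!
Simultaneous representations `n_j = f_j(p) + q_j`, `f_j` monic quadratic polynomials, with one common
prime `p` which is isolated, or which has many close neighbours: the right order of magnitude for all
`r`-tuples without local obstruction up to a proportion `κ`.
-/

set_option autoImplicit false

open Finset Filter Topology

namespace Pool.Agent.Results.MP_d9bc60_nt.CommonPrimeTuples

/-- `x ^ 2 + b x + c` is admissible: `b` and `c` have opposite parity and `3` does not divide `b`. -/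
def Admissible (b c : ℤ) : Prop := Odd (b + c) ∧ ¬ (3 : ℤ) ∣ b

/-- For every prime `l` there is an integer `t` prime to `l` for which `l` divides none of the numbers
`n_j - f_j(t)`, `f_j(t) = t ^ 2 + b_j t + c_j`. -/
def Unobstructed {r : ℕ} (b c : Fin r → ℤ) (n : Fin r → ℕ) : Prop :=
  ∀ l : ℕ, l.Prime → ∃ t : ℤ, ¬ (l : ℤ) ∣ t ∧ ∀ j, ¬ (l : ℤ) ∣ n j - (t ^ 2 + b j * t + c j)

/-- No prime other than `p` is at a distance of at most `R` from `p`. -/
def Isolated (R : ℝ) (p : ℕ) : Prop := ∀ q : ℕ, q.Prime → q ≠ p → R < |(q : ℝ) - p|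

open Classical in
/-- The primes different from `p` at distance at most `R` from `p`. -/
noncomputable def neighbours (R : ℝ) (p : ℕ) : Finset ℕ :=
  (Icc 1 (p + ⌊R⌋₊)).filter (fun q => q.Prime ∧ q ≠ p ∧ |(q : ℝ) - p| ≤ R)

open Classical in
/-- The primes `p ≤ x` with the property `Z` for which all `n_j - f_j(p)` are (positive) primes. -/
noncomputable def common {r : ℕ} (b c : Fin r → ℤ) (Z : ℕ → Prop) (n : Fin r → ℕ) (x : ℕ) :
    Finset ℕ :=
  (Icc 1 x).filter (fun p => p.Prime ∧ Z p ∧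
    ∀ j, ∃ q : ℕ, q.Prime ∧ (n j : ℤ) = ((p : ℤ) ^ 2 + b j * p + c j) + q)

open Classical in
/-- The `r`-tuples of integers in `[1, x ^ 2]` without local obstruction for which there are fewer than
`δ x / (log x) ^ (r + 1)` such primes `p`. -/
noncomputable def exceptions {r : ℕ} (b c : Fin r → ℤ) (Z : ℕ → ℕ → Prop) (δ : ℝ) (x : ℕ) :
    Finset (Fin r → ℕ) :=
  (Fintype.piFinset (fun _ : Fin r => Icc 1 (x ^ 2))).filter (fun n => Unobstructed b c n ∧
    ((common b c (Z x) n x).card : ℝ) < δ * (x / Real.log x ^ (r + 1)))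

lemma isol_of (R : ℝ) (p : ℕ) (h : Pool.Agent.TH882.IS.Isol R p) : Isolated R p := by
  intro q hq hqp
  by_contra hcon
  push Not at hcon
  rw [abs_le] at hcon
  exact hqp (h q hq (by linarith [hcon.2]) (by linarith [hcon.1]))

/-- one admissible polynomial: no odd integer is obstructed -/
lemma odd_unobstructed (b c : ℤ) (h : Admissible b c) (n : ℕ) (hn : Odd n) :
    Unobstructed (fun _ : Fin 1 => b) (fun _ => c) (fun _ => n) := by
  obtain ⟨⟨u, hu⟩, h3⟩ := h
  obtain ⟨v, hv⟩ := hn
  intro l hl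
  rcases Nat.lt_or_ge l 5 with hl5 | hl5
  · have hl' : l = 2 ∨ l = 3 := by
      have h2 := hl.two_le
      interval_cases l
      · exact Or.inl rfl
      · exact Or.inr rfl
      · exact absurd hl (by norm_num)
    rcases hl' with rfl | rfl
    · refine ⟨1, by norm_num, fun _ => ?_⟩
      push_cast
      intro hd
      have hv' : (n : ℤ) = 2 * v + 1 := by exact_mod_cast hv
      omega
    · by_cases hd : ((3 : ℕ) : ℤ) ∣ (n : ℤ) - (1 ^ 2 + b * 1 + c)
      · refine ⟨2, by norm_num, fun _ hd2 => h3 ?_⟩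
        push_cast at hd hd2
        omega
      · exact ⟨1, by norm_num, fun _ => hd⟩
  · by_contra hcon
    push Not at hcon
    have hsmall : ∀ t : ℤ, 0 < t → t < 5 → ¬ (l : ℤ) ∣ t := by
      intro t ht0 ht5 hd
      have := Int.le_of_dvd ht0 hd
      have h5 : (5 : ℤ) ≤ l := by exact_mod_cast hl5
      omega
    obtain ⟨-, h1⟩ := hcon 1 (hsmall 1 (by norm_num) (by norm_num))
    obtain ⟨-, h2⟩ := hcon 2 (hsmall 2 (by norm_num) (by norm_num))
    obtain ⟨-, h4⟩ := hcon 3 (hsmall 3 (by norm_num) (by norm_num))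
    have e : ((n : ℤ) - (1 ^ 2 + b * 1 + c)) - 2 * (n - (2 ^ 2 + b * 2 + c)) +
        (n - (3 ^ 2 + b * 3 + c)) = -2 := by ring
    have h5 := (h1.sub (h2.mul_left 2)).add h4
    rw [e] at h5
    exact hsmall 2 (by norm_num) (by norm_num) (by simpa using h5)

open Polynomial in
/-- (1) Let `f_1, ..., f_r` be monic quadratic polynomials, `Λ > 0`, `m ≥ 0` and `ε > 0`. For every
`κ > 0` there are `δ > 0` and `x₀` such that for `x ≥ x₀` all `r`-tuples `n` of integers in `[1, x ^ 2]`
without local obstruction, except at most `κ x ^ (2 r)` of them, have at least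
`δ x / (log x) ^ (r + 1)` representations `n_j = f_j(p) + q_j`, `1 ≤ j ≤ r`, with a common prime `p`
that has no other prime at distance at most `Λ log x`, and as many with a common prime `p` that has
at least `m` other primes at distance at most `ε log x`.
(2) For one admissible polynomial no odd integer is obstructed. -/
theorem result :
    (∀ (r : ℕ) (b c : Fin r → ℤ) (Λ : ℝ) (m : ℕ) (ε κ : ℝ), 0 < Λ → 0 < ε → 0 < κ →
      ∃ δ : ℝ, 0 < δ ∧ ∃ x₀ : ℕ, ∀ x : ℕ, x₀ ≤ x →
        ((exceptions b c (fun x p => Isolated (Λ * Real.log x) p) δ x).card : ℝ) ≤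
          κ * ((x : ℝ) ^ 2) ^ r ∧
        ((exceptions b c (fun x p => m ≤ (neighbours (ε * Real.log x) p).card) δ x).card : ℝ) ≤
          κ * ((x : ℝ) ^ 2) ^ r) ∧
    (∀ b c : ℤ, Admissible b c → ∀ n : ℕ, Odd n →
      Unobstructed (fun _ : Fin 1 => b) (fun _ => c) (fun _ => n)) := by
  classical
  refine ⟨?_, odd_unobstructed⟩
  intro r b c Λ m ε κ hΛ hε hκ
  set g : Fin r → Polynomial ℤ := fun j => C 1 * Polynomial.X ^ 2 +
    C (b j) * Polynomial.X + C (c j) with hg
  have hgd : ∀ j, (g j).natDegree = 2 := fun j => by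
    rw [hg]
    exact natDegree_quadratic one_ne_zero
  have hge : ∀ j, ∀ n : ℤ, (g j).eval n = n ^ 2 + b j * n + c j := by
    intro j n
    rw [hg]
    simp only [eval_add, eval_mul, eval_C, eval_pow, eval_X]
    ring
  have hgl : ∀ j, 0 < (g j).leadingCoeff := fun j => by
    rw [hg]
    simp only
    rw [leadingCoeff_quadratic one_ne_zero]
    norm_num
  have hg1 : ∀ j, 1 ≤ (g j).natDegree := fun j => by rw [hgd j]; norm_num
  obtain ⟨c1, hc1, t1, ht1, x1, h1⟩ := Pool.Agent.U215.Gold.gold_most g hg1 hgl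
    (Pool.Agent.TH882.IS.IP (2 * Λ)) (Pool.Agent.U215.Gold.iso_most (2 * Λ) (by positivity)) 1 κ hκ
  obtain ⟨c2, hc2, t2, ht2, x2, h2⟩ := Pool.Agent.U215.Gold.gold_most g hg1 hgl
    (Pool.Agent.TH882.JS.KP m ε) (Pool.Agent.TH882.JS.KP_most m ε hε) 1 κ hκ
  refine ⟨min c1 c2, lt_min hc1 hc2, max (max x1 x2) (max (t1 ^ 2 * 4) (t2 * 4) + 16), ?_⟩
  intro x hx
  have hx1 : x1 ≤ x := by omega
  have hx2 : x2 ≤ x := by omega
  have hxt1 : t1 ^ 2 * 4 ≤ x := by omega
  have hxt2 : t2 * 4 ≤ x := by omega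
  have hx16 : 16 ≤ x := by omega
  have hxr : (16 : ℝ) ≤ x := by exact_mod_cast hx16
  have hlx : 0 < Real.log x := Real.log_pos (by linarith)
  have e0 : ∏ j, (x : ℝ) ^ (g j).natDegree = ((x : ℝ) ^ 2) ^ r := by
    rw [prod_congr rfl fun j _ => by rw [hgd j]]
    rw [prod_const, card_univ, Fintype.card_fin]
  have hscale : (0 : ℝ) ≤ x / Real.log x ^ (r + 1) := by positivity
  -- the comparison of the two exceptional sets
  have key : ∀ (A : ℕ → ℕ → Finset ℕ) (t : ℕ) (δ : ℝ) (Z : ℕ → ℕ → Prop), 3 ≤ t →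
      min c1 c2 ≤ δ →
      (∀ p ∈ Ico (x / t) (2 * (x / t)), p ∈ A (x / t) (p % Pool.Agent.H361R2.PP.Wm (x / t)) →
        p.Prime ∧ Z x p) →
      (((Fintype.piFinset (fun j : Fin r => Icc 1 (1 * x ^ (g j).natDegree))).filter
        (fun k => Pool.Agent.TH882.KS.LocV (fun _ => -1) g k ∧
          ((Pool.Agent.U215.Gold.GolA A g (x / t) k).card : ℝ) <
          δ * (x / Real.log x ^ (r + 1)))).card : ℝ) ≤ κ * ∏ j, (x : ℝ) ^ (g j).natDegree →
      ((exceptions b c Z (min c1 c2) x).card : ℝ) ≤ κ * ((x : ℝ) ^ 2) ^ r := by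
    intro A t δ Z ht hδ hA h
    rw [← e0]
    refine le_trans ?_ h
    apply Nat.cast_le.2
    apply card_le_card
    intro n hn
    unfold exceptions at hn
    rw [mem_filter, Fintype.mem_piFinset] at hn
    rw [mem_filter, Fintype.mem_piFinset]
    obtain ⟨hn1, hn2, hn3⟩ := hn
    refine ⟨fun j => ?_, ?_, ?_⟩
    · rw [hgd j, one_mul]
      exact hn1 j
    · intro l hl
      obtain ⟨s, hs1, hs2⟩ := hn2 l hl
      refine ⟨s, hs1, fun j => ?_⟩
      rw [hge j, neg_one_mul, ← sub_eq_add_neg]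
      exact hs2 j
    · refine lt_of_le_of_lt ?_ (hn3.trans_le (mul_le_mul_of_nonneg_right hδ hscale))
      apply Nat.cast_le.2
      apply card_le_card
      intro p hp
      unfold Pool.Agent.U215.Gold.GolA at hp
      unfold common
      rw [mem_filter] at hp ⊢
      obtain ⟨g1, g2, g3⟩ := hp
      have g4 := hA p g1 g2
      rw [mem_Ico] at g1
      have htp : 0 < t := by omega
      have hxt : x / t * t ≤ x := Nat.div_mul_le_self _ _
      refine ⟨?_, g4.1, g4.2, fun j => ?_⟩
      · rw [mem_Icc]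
        have h2t : 2 * (x / t) ≤ x := by nlinarith
        exact ⟨g4.1.one_lt.le, by omega⟩
      · have g5 := g3 j
        have g6 : 0 ≤ (n j : ℤ) - (g j).eval (p : ℤ) := by
          by_contra hcon
          push Not at hcon
          rw [Int.toNat_of_nonpos hcon.le] at g5
          exact Nat.not_prime_zero g5
        refine ⟨_, g5, ?_⟩
        rw [Int.toNat_of_nonneg g6, hge j]
        ring
  constructor
  · apply key _ t1 c1 _ ht1 (min_le_left _ _) _ (h1 x hx1)
    intro p hp hpA
    unfold Pool.Agent.TH882.IS.IP at hpA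
    rw [mem_filter] at hpA
    refine ⟨hpA.2.1, isol_of _ _ ?_⟩
    -- the scales `log x` and `log (x / t)`
    have htp : 0 < t1 := by omega
    set X := x / t1 with hX
    have hX4 : 4 ≤ X := by
      rw [hX, Nat.le_div_iff_mul_le htp]
      nlinarith
    have hX0 : (0 : ℝ) < X := by
      have : 0 < X := by omega
      exact_mod_cast this
    have hxX : x < (X + 1) * t1 := by
      rw [hX, add_mul, one_mul]
      exact Nat.lt_div_mul_add htp
    have htX : t1 * 4 ≤ X := by
      rw [hX, Nat.le_div_iff_mul_le htp]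
      nlinarith
    have hxX2 : x ≤ X ^ 2 := by nlinarith
    have hl : Real.log x ≤ 2 * Real.log X := by
      calc Real.log x ≤ Real.log ((X : ℝ) ^ 2) := by
            apply Real.log_le_log (by linarith)
            exact_mod_cast hxX2
        _ = _ := by
            rw [Real.log_pow]
            push_cast
            ring
    intro q hq h5 h6
    have e1 : Λ * Real.log x ≤ 2 * Λ * Real.log X := by nlinarith
    exact hpA.2.2 q hq (by linarith) (by linarith)
  · apply key _ t2 c2 _ ht2 (min_le_right _ _) _ (h2 x hx2)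
    intro p hp hpA
    unfold Pool.Agent.TH882.JS.KP at hpA
    rw [mem_filter] at hpA
    refine ⟨hpA.2.1, hpA.2.2.trans ?_⟩
    unfold Pool.Agent.TH882.JS.nb neighbours
    apply card_le_card
    have htp : 0 < t2 := by omega
    set X := x / t2 with hX
    have hX4 : 4 ≤ X := by
      rw [hX, Nat.le_div_iff_mul_le htp]
      nlinarith
    have hXx : X ≤ x := Nat.div_le_self _ _
    have hX0 : (0 : ℝ) < X := by
      have : 0 < X := by omega
      exact_mod_cast this
    have hl : Real.log X ≤ Real.log x := Real.log_le_log hX0 (by exact_mod_cast hXx)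
    have hlX : 0 ≤ Real.log X := Real.log_nonneg (by
      have : 1 ≤ X := by omega
      exact_mod_cast this)
    have hN : ((⌊ε * Real.log X⌋₊ : ℕ) : ℝ) ≤ ε * Real.log x :=
      (Nat.floor_le (by positivity)).trans (mul_le_mul_of_nonneg_left hl hε.le)
    have hN2 : ⌊ε * Real.log X⌋₊ ≤ ⌊ε * Real.log x⌋₊ :=
      Nat.floor_le_floor (mul_le_mul_of_nonneg_left hl hε.le)
    intro q hq
    rw [mem_filter, mem_Icc] at hq ⊢
    obtain ⟨⟨h3, h4⟩, h5, h6⟩ := hq
    refine ⟨⟨h5.one_lt.le, by omega⟩, h5, h6, ?_⟩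
    have h7 : |(q : ℝ) - p| ≤ ((⌊ε * Real.log X⌋₊ : ℕ) : ℝ) := by
      rw [abs_le]
      have e1 : (q : ℝ) ≤ ((p + ⌊ε * Real.log X⌋₊ : ℕ) : ℝ) := by exact_mod_cast h4
      have e2 : (p : ℝ) ≤ ((q + ⌊ε * Real.log X⌋₊ : ℕ) : ℝ) := by
        have : p ≤ q + ⌊ε * Real.log X⌋₊ := by omega
        exact_mod_cast this
      push_cast at e1 e2
      constructor <;> linarith
    exact h7.trans hN

end Pool.Agent.Results.MP_d9bc60_nt.CommonPrimeTuples
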