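import Pool.Agent.U832.RG.Mix
import Pool.Agent.U832.RG.PrimeUse
import Pool.Agent.Y879.GL.QuadU
import Pool.Agent.U832.RH.GeE

/-!
# For EVERY odd `n ∉ f(ℤ)`: the PRIMES `p` with `n - f(p)` almost prime, and the process around them, uniformly in `f`

For EVERY large odd `n` and all admissible `f = x ^ 2 + b x + c` with `|b|, |c| ≤ n ^ A` and `n ∉ f(ℤ)` let `S` be the
set of the `m` for which neither `m` nor `n - f(m)` has a prime factor `≤ n ^ (1 / r)`. Around the PRIMES in `S`, that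
is around the representations `n = f(p) + n'` with a prime `p` and `n'` without prime factors `≤ n ^ (1 / r)`, the
elements of `S` form a Poisson process: the numbers of elements of `S` in disjoint windows are independent Poisson
variables. The same holds around arbitrary elements of `S`, around arbitrary integers, and around the `m` for which
`m (n - f(m))` has at most `R` prime factors, all `> n ^ v` (`R` and `v` do not depend on the windows), there in all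
intervals of length `≥ n ^ θ`.
-/

set_option autoImplicit false

namespace Pool.Agent.Results.MP_d9bc60_nt.EveryNPoisson

open Finset Filter Pool.Agent.U832.RG Pool.Agent.U832.RH

/-- The value `f(x) = x ^ 2 + b x + c`. -/
def f (b c x : ℤ) : ℤ := x ^ 2 + b * x + c

/-- `f` is admissible: `b` and `c` have opposite parity and `3` does not divide `b`. -/
def Admissible (b c : ℤ) : Prop := Odd (b + c) ∧ ¬ (3 : ℤ) ∣ b

/-- The `m` for which no prime `p ≤ y` divides `m` or `n - f(m)`. -/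
def Rough (b c : ℤ) (n y : ℕ) : Set ℕ :=
  {m | ∀ p : ℕ, p.Prime → p ≤ y → ¬ (p : ℤ) ∣ m ∧ ¬ (p : ℤ) ∣ n - f b c m}

/-- The `m` for which `m (n - f(m))` has at most `R` prime factors, counted with multiplicity, all `> z`. -/
def AlmostRough (b c : ℤ) (n R z : ℕ) : Set ℕ :=
  {m | m ∈ Rough b c n z ∧ ((m : ℤ) * (n - f b c m)).natAbs.primeFactorsList.length ≤ R}

open Classical in
/-- The number of the `m` modulo `p` for which `p` divides `m (n - f(m))`. -/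
noncomputable def w (b c : ℤ) (n p : ℕ) : ℕ := ((range p).filter (fun m : ℕ => (p : ℤ) ∣ m * (n - f b c m))).card

/-- The product of `1 - w p / p` over the primes `p ≤ y`. -/
noncomputable def V (b c : ℤ) (n y : ℕ) : ℝ := ∏ p ∈ (Icc 1 y).filter Nat.Prime, (1 - (w b c n p : ℝ) / p)

section aux

open Polynomial
open Pool.Agent.Y879.GL Pool.Agent.TH464.PO Pool.Agent.TH464.PW Pool.Agent.H373R2.T7 Pool.Agent.W123.RP
open Pool.Agent.W123.RU.Poly (Q)

lemma mQ (b c : ℤ) (n p m : ℕ) : Q (mix 1 b (c - n)) p m ↔ ((p : ℤ) ∣ m ∨ (p : ℤ) ∣ n - f b c m) := by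
  unfold Q
  rw [Fin.exists_fin_two]
  apply or_congr
  · show (p : ℤ) ∣ (X : ℤ[X]).eval (m : ℤ) ↔ _
    rw [eval_X]
  · show (p : ℤ) ∣ (quad 1 b (c - n)).eval (m : ℤ) ↔ _
    rw [Pool.Agent.U832.RG.quad_eval, ← dvd_neg]
    unfold f
    rw [show -(1 * (m : ℤ) ^ 2 + b * m + (c - n)) = n - ((m : ℤ) ^ 2 + b * m + c) by ring]

lemma pz_eq (y : ℕ) : pz y = (Icc 1 y).filter Nat.Prime := by
  ext p
  rw [mem_pz, mem_filter, mem_Icc]
  constructor
  · exact fun h => ⟨⟨h.2.one_lt.le, h.1⟩, h.2⟩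
  · exact fun h => ⟨h.1.2, h.2⟩

lemma rough_iff (b c : ℤ) (n y m : ℕ) : m ∈ Rough b c n y ↔ Sf (Q (mix 1 b (c - n))) y m := by
  constructor
  · intro h p hp
    rw [mQ, not_or]
    exact h p (mem_pz.1 hp).2 (mem_pz.1 hp).1
  · intro h p hp hpy
    have h1 := h p (mem_pz.2 ⟨hpy, hp⟩)
    rwa [mQ, not_or] at h1

lemma V_eq (b c : ℤ) (n y : ℕ) : Vq (Q (mix 1 b (c - n))) y = V b c n y := by
  classical
  unfold Vq V
  rw [pz_eq]
  apply Finset.prod_congr rfl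
  intro p hp
  have hpi : Prime (p : ℤ) := Nat.prime_iff_prime_int.1 (mem_filter.1 hp).2
  congr 3
  unfold w nuB
  congr 1
  ext m
  rw [mem_filter, mem_filter, mQ, hpi.dvd_mul]

lemma V_up (r : ℕ) (hr : 2 ≤ r) : ∃ Cv : ℝ, 0 < Cv ∧ ∀ᶠ N : ℕ in atTop, ∀ (b c : ℤ) (n : ℕ),
    Vq (Q (mix 1 b (c - n))) ⌊(N : ℝ) ^ (1 / (r : ℝ))⌋₊ ≤ Cv / Real.log N := by
  classical
  obtain ⟨C, hC, hVz⟩ := Vz_up r hr
  refine ⟨C, hC, ?_⟩
  filter_upwards [hVz] with N hN b c n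
  refine le_trans ?_ hN.2
  unfold Vq Vz
  apply Finset.prod_le_prod
  · intro p hp
    have hp' := mem_pz.1 hp
    have h1 : nuB (Q (mix 1 b (c - n))) p ≤ p := by
      unfold nuB
      refine (card_filter_le _ _).trans (by rw [card_range])
    have h2 : (nuB (Q (mix 1 b (c - n))) p : ℝ) ≤ p := by exact_mod_cast h1
    have h3 : (0 : ℝ) < p := by exact_mod_cast hp'.2.pos
    rw [sub_nonneg, div_le_one h3]
    exact h2
  · intro p hp
    have hp' := mem_pz.1 hp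
    have h3 : (0 : ℝ) < p := by exact_mod_cast hp'.2.pos
    have h1 : 1 ≤ nuB (Q (mix 1 b (c - n))) p := by
      unfold nuB
      rw [Nat.one_le_iff_ne_zero, ← Nat.pos_iff_ne_zero, card_pos]
      refine ⟨0, mem_filter.2 ⟨mem_range.2 hp'.2.pos, ?_⟩⟩
      rw [mQ]
      left
      rw [Nat.cast_zero]
      exact dvd_zero _
    have h2 : (1 : ℝ) ≤ nuB (Q (mix 1 b (c - n))) p := by exact_mod_cast h1
    have h4 := div_le_div_of_nonneg_right h2 h3.le
    linarith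

lemma not_sq (b c : ℤ) (n : ℕ) (hn : ∀ m : ℤ, (n : ℤ) ≠ f b c m) : ¬ IsSquare (b ^ 2 - 4 * 1 * (c - n)) := by
  rintro ⟨s, hs⟩
  have h1 : Even (s - b) := by
    have h2 : Even (s * s - b * b) := ⟨-2 * (c - n), by linarith [sq b]⟩
    rw [Int.even_sub, Int.even_mul, Int.even_mul, or_self, or_self] at h2
    rwa [Int.even_sub]
  obtain ⟨m, hm⟩ := h1
  apply hn m
  have hsm : s = 2 * m + b := by linarith
  subst hsm
  unfold f
  nlinarith

lemma us_ok (A : ℕ) (b c : ℤ) (n : ℕ) (hn1 : 1 ≤ n) (ho : Odd n) (hf : Admissible b c)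
    (hn : ∀ m : ℤ, (n : ℤ) ≠ f b c m) (hb : |b| ≤ (n : ℤ) ^ A) (hc : |c| ≤ (n : ℤ) ^ A) (U : ℝ) :
    US 2 2 (2 * (n : ℝ) ^ ((A : ℝ) + 1)) U (mix 1 b (c - n)) where
  irr i := by
    fin_cases i
    · exact irreducible_X
    · exact quad_irr 1 b (c - n) one_ne_zero (by
        rintro p hp ⟨h1, -, -⟩
        have := Int.natCast_dvd_natCast.1 (by exact_mod_cast h1 : (p : ℤ) ∣ ((1 : ℕ) : ℤ))
        exact hp.one_lt.ne' (Nat.dvd_one.1 this)) (not_sq b c n hn)
  deg i := by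
    fin_cases i
    · simp [mix]
    · show (quad 1 b (c - n)).natDegree ≠ 0
      rw [quad_deg 1 b (c - n) one_ne_zero]
      norm_num
  degD i := by
    fin_cases i
    · simp [mix]
    · show (quad 1 b (c - n)).natDegree ≤ 2
      rw [quad_deg 1 b (c - n) one_ne_zero]
  hgt i j := by
    have hn1r : (1 : ℝ) ≤ n := by exact_mod_cast hn1
    have h1 : (1 : ℤ) ≤ (n : ℤ) ^ A := one_le_pow₀ (by exact_mod_cast hn1)
    have hnn : (n : ℤ) ≤ (n : ℤ) ^ (A + 1) := by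
      calc (n : ℤ) = (n : ℤ) ^ 1 := (pow_one _).symm
        _ ≤ (n : ℤ) ^ (A + 1) := pow_le_pow_right₀ (by exact_mod_cast hn1) (by omega)
    have hAA : (n : ℤ) ^ A ≤ (n : ℤ) ^ (A + 1) := pow_le_pow_right₀ (by exact_mod_cast hn1) (by omega)
    have e : 2 * (n : ℝ) ^ ((A : ℝ) + 1) = ((2 * (n : ℤ) ^ (A + 1) : ℤ) : ℝ) := by
      rw [show ((A : ℝ) + 1) = ((A + 1 : ℕ) : ℝ) by push_cast; ring, Real.rpow_natCast]
      push_cast
      ring
    rw [e, ← Int.cast_abs, Int.cast_le]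
    fin_cases i
    · show |(X : ℤ[X]).coeff j| ≤ _
      rw [coeff_X]
      split_ifs
      · rw [abs_one]; linarith
      · rw [abs_zero]; linarith
    · show |(quad 1 b (c - n)).coeff j| ≤ _
      apply quad_coeff 1 b (c - n) j
      · rw [abs_one]; linarith
      · linarith
      · refine (abs_sub _ _).trans ?_
        rw [Nat.abs_cast]
        linarith
  adm p hp := by
    obtain ⟨hbc, h3⟩ := hf
    have key : ∃ m : ℕ, ¬ (p : ℤ) ∣ m ∧ ¬ (p : ℤ) ∣ 1 * (m : ℤ) ^ 2 + b * m + (c - n) := by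
      have hoz : Odd (n : ℤ) := by exact_mod_cast ho
      rw [Int.odd_iff] at hbc hoz
      have hp2 := hp.two_le
      have e1 : 1 * ((1 : ℕ) : ℤ) ^ 2 + b * ((1 : ℕ) : ℤ) + (c - n) = 1 + b + (c - n) := by push_cast; ring
      have e2 : 1 * ((2 : ℕ) : ℤ) ^ 2 + b * ((2 : ℕ) : ℤ) + (c - n) = 4 + 2 * b + (c - n) := by push_cast; ring
      by_cases hp22 : p = 2
      · subst hp22
        refine ⟨1, by norm_num, ?_⟩
        rw [e1, Nat.cast_ofNat]
        omega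
      by_cases hp3 : p = 3
      · subst hp3
        by_cases hd : (3 : ℤ) ∣ 1 + b + (c - n)
        · refine ⟨2, by norm_num, ?_⟩
          rw [e2, Nat.cast_ofNat]
          omega
        · refine ⟨1, by norm_num, ?_⟩
          rw [e1, Nat.cast_ofNat]
          exact hd
      have hp5 : 5 ≤ p := by
        have h4 : p ≠ 4 := by
          rintro rfl
          exact absurd hp (by norm_num)
        omega
      have hs : ∀ k : ℕ, 1 ≤ k → k ≤ 4 → ¬ (p : ℤ) ∣ k := by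
        intro k h1 h4 hd
        have := Nat.le_of_dvd (by omega) (Int.natCast_dvd_natCast.1 hd)
        omega
      by_contra hcon
      push Not at hcon
      have g1 := hcon 1 (hs 1 (by norm_num) (by norm_num))
      have g2 := hcon 2 (hs 2 (by norm_num) (by norm_num))
      have g3 := hcon 3 (hs 3 (by norm_num) (by norm_num))
      have g4 : (p : ℤ) ∣ ((2 : ℕ) : ℤ) := by
        have g5 := dvd_add (dvd_sub g1 (Dvd.dvd.mul_left g2 2)) g3
        have e : (1 * ((1 : ℕ) : ℤ) ^ 2 + b * ((1 : ℕ) : ℤ) + (c - n) -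
            2 * (1 * ((2 : ℕ) : ℤ) ^ 2 + b * ((2 : ℕ) : ℤ) + (c - n)) +
            (1 * ((3 : ℕ) : ℤ) ^ 2 + b * ((3 : ℕ) : ℤ) + (c - n))) = ((2 : ℕ) : ℤ) := by
          push_cast
          ring
        rwa [e] at g5
      exact hs 2 (by norm_num) (by norm_num) g4
    obtain ⟨m, h1, h2⟩ := key
    refine ⟨m, fun i => ?_⟩
    fin_cases i
    · show ¬ (p : ℤ) ∣ (X : ℤ[X]).eval (m : ℤ)
      rwa [eval_X]
    · show ¬ (p : ℤ) ∣ (quad 1 b (c - n)).eval (m : ℤ)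
      rwa [Pool.Agent.U832.RG.quad_eval]
  tr i j t ht _ := mix_noshift 1 b (c - n) one_pos i j t ht

lemma us_ok' (A : ℕ) (b c : ℤ) (n : ℕ) (hn2 : 2 ≤ n) (ho : Odd n) (hf : Admissible b c)
    (hn : ∀ m : ℤ, (n : ℤ) ≠ f b c m) (hb : |b| ≤ (n : ℤ) ^ A) (hc : |c| ≤ (n : ℤ) ^ A) (U : ℝ) :
    US 2 2 ((n : ℝ) ^ ((A : ℝ) + 2)) U (mix 1 b (c - n)) := by
  have h := us_ok A b c n (by omega) ho hf hn hb hc U
  refine ⟨h.irr, h.deg, h.degD, fun i j => (h.hgt i j).trans ?_, h.adm, h.tr⟩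
  have hn0 : (0 : ℝ) < n := by exact_mod_cast (by omega : 0 < n)
  have hn2r : (2 : ℝ) ≤ n := by exact_mod_cast hn2
  calc 2 * (n : ℝ) ^ ((A : ℝ) + 1) ≤ n * (n : ℝ) ^ ((A : ℝ) + 1) :=
        mul_le_mul_of_nonneg_right hn2r (by positivity)
    _ = (n : ℝ) ^ ((A : ℝ) + 2) := by
        rw [show (A : ℝ) + 2 = 1 + ((A : ℝ) + 1) by ring, Real.rpow_add hn0 1 ((A : ℝ) + 1), Real.rpow_one]

lemma base (b c : ℤ) : ∃ i, ∀ m : ℕ, (mix 1 b c i).eval (m : ℤ) = m := by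
  refine ⟨0, fun m => ?_⟩
  show (X : ℤ[X]).eval (m : ℤ) = m
  rw [eval_X]

lemma almost_iff (A : ℕ) (b c : ℤ) (n z m : ℕ) (v : ℝ) (hn : 4 ≤ n) (hv : 0 < v) (hz : z = ⌊(n : ℝ) ^ v⌋₊)
    (hz2 : 2 ≤ z) (hb : |b| ≤ (n : ℤ) ^ A) (hc : |c| ≤ (n : ℤ) ^ A) (hm : m ≤ n) :
    m ∈ AlmostRough b c n ⌊((A + 4 : ℕ) : ℝ) / v⌋₊ z ↔ m ∈ Rough b c n z := by
  refine ⟨fun h => h.1, fun h => ⟨h, ?_⟩⟩
  have hdvd : ∀ p : ℕ, p.Prime → p ≤ z → ¬ p ∣ ((m : ℤ) * (n - f b c m)).natAbs := by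
    intro p hp hpz hd
    have h1 : (p : ℤ) ∣ (m : ℤ) * (n - f b c m) := Int.natCast_dvd.2 hd
    rcases (Nat.prime_iff_prime_int.1 hp).dvd_or_dvd h1 with h2 | h2
    · exact (h p hp hpz).1 h2
    · exact (h p hp hpz).2 h2
  apply few_factors n v ((A + 4 : ℕ) : ℝ) (by omega) hv
  · intro h0
    exact hdvd 2 Nat.prime_two hz2 (by rw [h0]; exact dvd_zero 2)
  · rw [Real.rpow_natCast]
    have hnz : (4 : ℤ) ≤ n := by exact_mod_cast hn
    have hmz : (m : ℤ) ≤ n := by exact_mod_cast hm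
    have hm0 : (0 : ℤ) ≤ m := Int.natCast_nonneg m
    obtain ⟨P, hP⟩ : ∃ P : ℤ, P = (n : ℤ) ^ A := ⟨_, rfl⟩
    have hP1 : 1 ≤ P := by rw [hP]; exact one_le_pow₀ (by linarith)
    rw [← hP] at hb hc
    have h1 : |(n : ℤ) - f b c m| ≤ 4 * (P * (n * n)) := by
      unfold f
      have hnn : (n : ℤ) ≤ n * n := by nlinarith
      have g1 : |b * m| ≤ P * n := by
        rw [abs_mul, abs_of_nonneg hm0]
        exact mul_le_mul hb hmz hm0 (by linarith)
      have g2 : (m : ℤ) ^ 2 ≤ n * n := by nlinarith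
      have g3 : P * (n : ℤ) ≤ P * (n * n) := mul_le_mul_of_nonneg_left hnn (by linarith)
      have g4 : (n : ℤ) * n ≤ P * (n * n) := le_mul_of_one_le_left (by positivity) hP1
      have g5 : P ≤ P * (n * n) := le_mul_of_one_le_right (by linarith) (by nlinarith)
      have g6 : 0 ≤ (m : ℤ) ^ 2 := sq_nonneg _
      obtain ⟨g7, g8⟩ := abs_le.1 g1
      obtain ⟨g9, g10⟩ := abs_le.1 hc
      rw [abs_le]
      constructor <;> linarith
    have h2 : |(m : ℤ) * (n - f b c m)| ≤ n * (4 * (P * (n * n))) := by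
      rw [abs_mul, abs_of_nonneg hm0]
      exact mul_le_mul hmz h1 (abs_nonneg _) (by linarith)
    have h3 : (n : ℤ) * (4 * (P * (n * n))) ≤ (n : ℤ) ^ (A + 4) := by
      have e : (n : ℤ) ^ (A + 4) = n * (n * (P * (n * n))) := by rw [hP]; ring
      rw [e]
      exact mul_le_mul_of_nonneg_left (mul_le_mul_of_nonneg_right hnz (by positivity)) (by linarith)
    have h4 : ((((m : ℤ) * (n - f b c m)).natAbs : ℕ) : ℤ) ≤ ((n ^ (A + 4) : ℕ) : ℤ) := by
      rw [Int.natCast_natAbs]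
      push_cast
      exact h2.trans h3
    exact_mod_cast h4
  · intro p hp hpz
    exact hdvd p hp (by rw [hz]; exact hpz)

end aux

/-- Let `A` be a natural number, `θ, η > 0`, `0 < δ ≤ 1`. There are `v > 0` and `R`, such that for all `J`, `L`, `x₀`,
all `ε > 0` and all large `r`: for ALL large odd `n`, with `y = ⌊n ^ (1 / r)⌋`, `z = ⌊n ^ v⌋`, for ALL admissible
`f = x ^ 2 + b x + c` with `|b|, |c| ≤ n ^ A` and `n ∉ f(ℤ)`, and all `T` with `T V ≤ x₀`, `V = V b c n y`, the set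
`Rough b c n y` satisfies:
(1) `PrimeLaw` for all `X ≥ n ^ θ` and all `(Z, Z + Y]` with `δ X ≤ Z`, `δ X ≤ Y`, `Z + Y ≤ X`: for all disjoint
windows `(a j, d j] ⊆ (0, T]`, `j < J`, all `s ≤ T` outside of them and all `k j ≤ L`, the number of the `m` in
`(Z, Z + Y]` for which `m + s` is a PRIME in `Rough b c n y` and exactly `k j` elements of `Rough b c n y` lie in
`(m + a j, m + d j]` for all `j` is `Y V / (mertens y * log X) Π` up to `ε Y V / (mertens y * log X)`, where `Π` is the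
product of the probabilities that a Poisson variable of mean `(d j - a j) V` has the value `k j`. (For `J = 0` this
is the number of the primes `p` for which `n - f(p)` has no prime factor `≤ y`.)
(2) `PoissonLaw` for ALL intervals `(Z, Z + Y]` with `Y ≥ n ^ θ`: the same for arbitrary elements `m + s` of
`Rough b c n y`, with `Y V` instead of `Y V / (mertens y * log X)`, and for arbitrary integers `m`, with `Y`.
(3) `CentreLaw` if moreover `Z + Y + T ≤ n`: the number of the `m` in `(Z, Z + Y]` with `m + s ∈ AlmostRough b c n R z`,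
with the same windows, is `Y W Π` up to `(η Π + ε) Y W`, `W = V b c n z`. -/
theorem result (A : ℕ) (θ δ η : ℝ) (hθ : 0 < θ) (hδ : 0 < δ) (hδ1 : δ ≤ 1) (hη : 0 < η) :
    ∃ v : ℝ, 0 < v ∧ ∃ R : ℕ, ∀ (J L : ℕ) (x₀ ε : ℝ), 0 < ε →
    ∃ r₀ : ℕ, ∀ r : ℕ, r₀ ≤ r → ∀ᶠ n : ℕ in atTop, Odd n →
      ∀ y z : ℕ, y = ⌊(n : ℝ) ^ (1 / (r : ℝ))⌋₊ → z = ⌊(n : ℝ) ^ v⌋₊ →
      ∀ b c : ℤ, Admissible b c → |b| ≤ (n : ℤ) ^ A →
      |c| ≤ (n : ℤ) ^ A → (∀ m : ℤ, (n : ℤ) ≠ f b c m) → ∀ T : ℕ, T * V b c n y ≤ x₀ →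
        (∀ X Z Y : ℕ, (n : ℝ) ^ θ ≤ X → δ * X ≤ Z → δ * X ≤ Y → Z + Y ≤ X →
          PrimeLaw (Rough b c n y) (V b c n y) y J L ε X Z Y T) ∧
        ∀ Z Y : ℕ, (n : ℝ) ^ θ ≤ Y → PoissonLaw (Rough b c n y) (V b c n y) J L ε Z Y T ∧
          (Z + Y + T ≤ n →
            CentreLaw (AlmostRough b c n R z) (Rough b c n y) (V b c n z) (V b c n y) J L η ε Z Y T) := by
  obtain ⟨v, hv, hG⟩ := lawG_polys 2 2 ((A : ℝ) + 2) 1 θ (by positivity) one_pos hθ η hη
  refine ⟨v, hv, ⌊((A + 4 : ℕ) : ℝ) / v⌋₊, ?_⟩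
  intro J L x₀ ε hε
  obtain ⟨r₁, h1⟩ := law_polys 2 2 ((A : ℝ) + 2) 1 θ (by positivity) one_pos hθ J L x₀ ε hε
  obtain ⟨r₂, h2⟩ := plaw_polys 2 2 ((A : ℝ) + 2) 1 θ δ (by positivity) one_pos hθ hδ hδ1 J L x₀ ε hε
  obtain ⟨r₃, h3⟩ := hG v hv le_rfl J L x₀ ε hε
  have hpow : Tendsto (fun X : ℕ => (X : ℝ) ^ v) atTop atTop :=
    (tendsto_rpow_atTop hv).comp tendsto_natCast_atTop_atTop
  refine ⟨max (max r₁ r₃) (max r₂ 2), fun r hr => ?_⟩
  obtain ⟨Cv, hCv, hV⟩ := V_up r (((le_max_right _ _).trans (le_max_right _ _)).trans hr)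
  filter_upwards [h1 r (((le_max_left _ _).trans (le_max_left _ _)).trans hr) Cv,
    h2 r (((le_max_left _ _).trans (le_max_right _ _)).trans hr) Cv,
    h3 r (((le_max_right _ _).trans (le_max_left _ _)).trans hr) Cv, hV, hpow.eventually_ge_atTop 2,
    eventually_ge_atTop 4] with n hX hX' hX'' hVX hnv hn4
  intro ho y z hy hz b c hf hb hc hn T hT
  have hn2 : 2 ≤ n := by omega
  have hz2 : 2 ≤ z := by
    rw [hz]
    exact Nat.le_floor (by exact_mod_cast hnv)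
  refine ⟨fun X Z Y hXn hZ hY hZY => ?_, fun Z Y hY => ⟨?_, fun hZ => ?_⟩⟩
  · have h4 := hX' (mix 1 b (c - n)) (us_ok' A b c n hn2 ho hf hn hb hc _) (base b (c - n)) (hVX b c n)
      X Z Y hXn hZ hY hZY T
    rw [← hy, V_eq] at h4
    exact h4 hT (Rough b c n y) (fun m _ => rough_iff b c n y m)
  · have h4 := hX (mix 1 b (c - n)) (us_ok' A b c n hn2 ho hf hn hb hc _) (hVX b c n) Z Y hY T
    rw [← hy, V_eq] at h4
    exact h4 hT (Rough b c n y) (fun m _ => rough_iff b c n y m)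
  · have h4 := hX'' y z hy hz (mix 1 b (c - n)) (us_ok' A b c n hn2 ho hf hn hb hc _) (by
      rw [hy]
      exact hVX b c n) Z Y hY T
    rw [V_eq, V_eq] at h4
    exact h4 hT (AlmostRough b c n ⌊((A + 4 : ℕ) : ℝ) / v⌋₊ z) (Rough b c n y) (fun m _ => rough_iff b c n y m)
      (fun m hm => (almost_iff A b c n z m v hn4 hv hz hz2 hb hc (by omega)).trans (rough_iff b c n z m))

end Pool.Agent.Results.MP_d9bc60_nt.EveryNPoisson
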