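import Pool.Agent.U918.SG.Multi

/-!
# `n - f(s)` for monic quadratic `f` and `s` in an arbitrary set `S`: only the small primes matter

The question asks for representations `n = f(p₁) + p₂` of the odd numbers `n`, where `f(x) = x² + b x + c` and
`p₁`, `p₂` are prime. Let `X` be large, `M` the product of the primes `≤ y`, where `y` is comparable to `log log X` (so
`M` is a power of `log X`), and let `S` be an ARBITRARY set of integers `|b| < s ≤ X`, for instance any set of primes.
Then in EVERY residue class `a` modulo `M` almost all integers `n ≡ a`, in windows of length at least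
`X² / log ^ C X` between `X² + |b| X + |c|` and `X² log ^ B X`, are such that the number of `s ∈ S` for which `n - f(s)`
is prime is asymptotically the number of `s ∈ S` for which `a - f(s)` is prime to `M`, divided by `2 V log X`,
`V = ∏_{q ≤ y} (1 - 1/q)`, up to an error `ε` times this number plus `X / log ^ D X`. The same holds for several
polynomials `f_i` and integers `n_i` at once: the number of `s ∈ S` for which all `n_i - f_i(s)` are prime.
-/

set_option autoImplicit false

open Finset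

namespace Pool.Agent.Results.MP_d9bc60_nt.SmallModuli

/-- the product of `1 - 1/q` over the primes `q ≤ y` -/
noncomputable def V (y : ℕ) : ℝ := ∏ q ∈ (Icc 1 y).filter Nat.Prime, (1 - 1 / (q : ℝ))

/-- `n - f(s)` for `f(x) = x² + b x + c` (and `0` if this is negative) -/
def diff (b c : ℤ) (n s : ℕ) : ℕ := ((n : ℤ) - ((s : ℤ) ^ 2 + b * s + c)).toNat

/-- the `s ∈ S` for which all the numbers `n i - f_i(s)`, `f_i(x) = x² + b_i x + c_i`, are prime -/
noncomputable def Primes {r : ℕ} (b c : Fin r → ℤ) (S : Finset ℕ) (n : Fin r → ℕ) : Finset ℕ :=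
  open Classical in S.filter (fun s => ∀ i, (diff (b i) (c i) (n i) s).Prime)

/-- the `s ∈ S` for which all the numbers `n i - f_i(s)`, `f_i(x) = x² + b_i x + c_i`, are prime to `M` -/
noncomputable def Sifted {r : ℕ} (b c : Fin r → ℤ) (M : ℕ) (S : Finset ℕ) (n : Fin r → ℕ) : Finset ℕ :=
  open Classical in S.filter (fun s => ∀ i, (diff (b i) (c i) (n i) s).Coprime M)

/-- the argument: `s` if `b ≥ 0`, and `s - |b|` if `b < 0` -/
def arg (b : ℤ) (s : ℕ) : ℕ := if 0 ≤ b then s else s - b.natAbs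

theorem arg_qf (b : ℤ) (s : ℕ) (hs : b.natAbs < s) :
    ((Pool.Agent.U918.SG.qf 1 b.natAbs (arg b s) : ℕ) : ℤ) = (s : ℤ) ^ 2 + b * s := by
  unfold Pool.Agent.U918.SG.qf arg
  split_ifs with hb
  · push_cast
    rw [abs_of_nonneg hb]
    ring
  · push Not at hb
    push_cast [Nat.cast_sub hs.le]
    rw [abs_of_neg hb]
    ring

theorem diff_eq (b c : ℤ) (X H w s : ℕ) (hs : b.natAbs < s) (hsX : s ≤ X)
    (hH : (X : ℤ) ^ 2 + |b| * X + |c| < H) :
    Pool.Agent.U918.SG.qf 1 b.natAbs (arg b s) < ((H : ℤ) - c).toNat ∧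
    diff b c (H + w) s =
      Pool.Agent.U918.SG.vl false 1 b.natAbs (arg b s) (((H : ℤ) - c).toNat + w) := by
  have h1 := arg_qf b s hs
  have hsXz : (s : ℤ) ≤ X := by exact_mod_cast hsX
  have hs0 : (0 : ℤ) ≤ s := Int.natCast_nonneg s
  have h2 : (s : ℤ) ^ 2 ≤ (X : ℤ) ^ 2 := pow_le_pow_left₀ hs0 hsXz 2
  have h3 : b * s ≤ |b| * X := by
    calc b * s ≤ |b| * s := mul_le_mul_of_nonneg_right (le_abs_self b) hs0
      _ ≤ |b| * X := mul_le_mul_of_nonneg_left hsXz (abs_nonneg b)
  have h4 : c ≤ |c| := le_abs_self c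
  have h5 : (s : ℤ) ^ 2 + b * s < (H : ℤ) - c := by linarith
  have h6 : (0 : ℤ) ≤ ((Pool.Agent.U918.SG.qf 1 b.natAbs (arg b s) : ℕ) : ℤ) := Int.natCast_nonneg _
  have h7 : (0 : ℤ) ≤ (H : ℤ) - c := by
    rw [← h1] at h5
    linarith
  obtain ⟨K, hK⟩ := Int.eq_ofNat_of_zero_le h7
  rw [hK, Int.toNat_natCast]
  have h8 : Pool.Agent.U918.SG.qf 1 b.natAbs (arg b s) < K := by
    have : ((Pool.Agent.U918.SG.qf 1 b.natAbs (arg b s) : ℕ) : ℤ) < (K : ℤ) := by
      rw [← hK, h1]
      exact h5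
    exact_mod_cast this
  refine ⟨h8, ?_⟩
  unfold diff Pool.Agent.U918.SG.vl
  simp only [Bool.false_eq_true, if_false]
  have h9 : ((H + w : ℕ) : ℤ) - ((s : ℤ) ^ 2 + b * s + c) =
      ((K + w - Pool.Agent.U918.SG.qf 1 b.natAbs (arg b s) : ℕ) : ℤ) := by
    have h10 : ((K + w - Pool.Agent.U918.SG.qf 1 b.natAbs (arg b s) : ℕ) : ℤ) =
        (K : ℤ) + w - (Pool.Agent.U918.SG.qf 1 b.natAbs (arg b s) : ℕ) := by
      omega
    rw [h10, h1, ← hK]
    push_cast
    ring
  rw [h9, Int.toNat_natCast]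

/-- **The theorem.** Let `f_i(x) = x² + b_i x + c_i`, `i = 1, …, r`, be monic quadratic polynomials with integer
coefficients. For all `B`, `C`, `D`, `0 < ε ≤ 1` there is `K₀` such that for every `K₁`, every large `X` and every `y`
between `K₀ log log X` and `K₁ log log X`, with `M` the product of the primes `≤ y`, the following holds. Let `S` be any
set of integers `s ≤ X` which are larger than all `|b_i|`, and let `H i`, `G i` be integers with
`X² + |b_i| X + |c_i| < H i`, `H i + M G i ≤ X² log ^ B X` and `X² ≤ M (G i) log ^ C X`. For all but at most `ε ∏ G i`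
of the vectors `g`, `1 ≤ g i ≤ G i`, the number of the `s ∈ S` for which all the numbers `n_i - f_i(s)`,
`n_i = H i + M g i`, are prime differs from `S' / (2 V y log X) ^ r`, where `S'` is the number of the `s ∈ S` for which
all the numbers `H i - f_i(s)` are prime to `M`, by at most `ε S' / (2 V y log X) ^ r + X / log ^ D X`. -/
theorem result (r : ℕ) (b c : Fin r → ℤ) (B C D : ℕ) (ε : ℝ) (hε : 0 < ε) (hε1 : ε ≤ 1) :
    ∃ K₀ : ℕ, ∀ K₁ : ℕ, ∃ X₀ : ℕ, ∀ X : ℕ, X₀ ≤ X →
    ∀ y : ℕ, K₀ * Real.log (Real.log X) ≤ y → y ≤ K₁ * Real.log (Real.log X) →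
    ∀ S : Finset ℕ, S ⊆ Icc 1 X → (∀ i, ∀ s ∈ S, (b i).natAbs < s) →
    ∀ H G : Fin r → ℕ, (∀ i, (X : ℤ) ^ 2 + |b i| * X + |c i| < H i) →
    (∀ i, ((H i + primorial y * G i : ℕ) : ℝ) ≤ X ^ 2 * Real.log X ^ B) →
    (∀ i, (X : ℝ) ^ 2 ≤ primorial y * G i * Real.log X ^ C) →
      (((Fintype.piFinset (fun i => Icc 1 (G i))).filter (fun g =>
        ε * ((Sifted b c (primorial y) S H).card / (2 * (V y * Real.log X)) ^ r) + X / Real.log X ^ D <
        |((Primes b c S (fun i => H i + primorial y * g i)).card : ℝ) -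
          (Sifted b c (primorial y) S H).card / (2 * (V y * Real.log X)) ^ r|)).card : ℝ) ≤
      ε * ∏ i, (G i : ℝ) := by
  obtain ⟨K₀, hK₀⟩ := Pool.Agent.U918.SG.mainG r (fun _ => false) (fun _ => 1) (fun i => (b i).natAbs)
    (fun _ => Nat.le_add_right _ _) (B + 1) C D ε hε hε1
  refine ⟨K₀, fun K₁ => ?_⟩
  obtain ⟨x₀, hx₀⟩ := hK₀ K₁
  obtain ⟨n1, hn1⟩ := Pool.Agent.H373R2.T7.ev_L' 2
  obtain ⟨T, hT⟩ : ∃ T : ℕ, T = ∑ i, (c i).natAbs := ⟨_, rfl⟩
  refine ⟨max x₀ (max n1 (T + 1)), fun x hx y hy1 hy2 S hS hSb H G a0 a1 a2 => ?_⟩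
  have hL := hn1 x (le_trans (le_trans (le_max_left _ _) (le_max_right _ _)) hx)
  have hxT : T + 1 ≤ x := le_trans (le_trans (le_max_right _ _) (le_max_right _ _)) hx
  have hd : Pool.Agent.U918.SG.dg 1 = 2 := rfl
  have hx1 : (1 : ℝ) ≤ x := by exact_mod_cast (show 1 ≤ x by omega)
  have hLB : 1 ≤ Real.log x ^ B := one_le_pow₀ (by linarith)
  have key := hx₀ x (le_trans (le_max_left _ _) hx) y hy1 hy2 S (fun i s => arg (b i) s)
    (fun i => by
      intro s hs t ht hst
      have h1 := hSb i s (mem_coe.1 hs)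
      have h2 := hSb i t (mem_coe.1 ht)
      simp only [arg] at hst
      split_ifs at hst
      · exact hst
      · omega)
    (fun i s hs => by
      have h1 := mem_Icc.1 (hS hs)
      have h2 := hSb i s hs
      have h3 : 1 ≤ arg (b i) s ∧ arg (b i) s ≤ x := by
        unfold arg
        split_ifs <;> omega
      refine ⟨h3.1, ?_⟩
      have h4 : (arg (b i) s : ℝ) ≤ x := by exact_mod_cast h3.2
      exact h4.trans (le_mul_of_one_le_right (Nat.cast_nonneg _) (one_le_pow₀ (by linarith))))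
    (fun i => ((H i : ℤ) - c i).toNat) G
    (fun i _ s hs => (diff_eq (b i) (c i) x (H i) 0 s (hSb i s hs) (mem_Icc.1 (hS hs)).2 (a0 i)).1)
    (fun i => by
      rw [hd]
      have h1 : ((((H i : ℤ) - c i).toNat : ℕ) : ℝ) ≤ H i + T := by
        have h2 : ((H i : ℤ) - c i).toNat ≤ H i + T := by
          have h3 : (c i).natAbs ≤ T := by
            rw [hT]
            exact single_le_sum (f := fun i => (c i).natAbs) (fun _ _ => Nat.zero_le _) (mem_univ i)
          omega
        exact_mod_cast h2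
      have h4 := a1 i
      rw [Nat.cast_add] at h4 ⊢
      have h5 : (T : ℝ) ≤ x ^ 2 := by
        have : (T : ℝ) ≤ x := by exact_mod_cast (show T ≤ x by omega)
        nlinarith
      have h6 : (x : ℝ) ^ 2 ≤ x ^ 2 * Real.log x ^ B := le_mul_of_one_le_right (by positivity) hLB
      have h7 : (x : ℝ) ^ 2 * Real.log x ^ B * 2 ≤ x ^ 2 * Real.log x ^ B * Real.log x :=
        mul_le_mul_of_nonneg_left hL (by positivity)
      rw [pow_succ (Real.log (x : ℝ)) B]
      linarith)
    (fun i => by rw [hd]; exact a2 i)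
    (fun g => Primes b c S (fun i => H i + primorial y * g i))
    (fun _ => Sifted b c (primorial y) S H)
    (fun g => by unfold Primes; exact filter_subset _ _)
    (fun g => by unfold Sifted; exact filter_subset _ _)
    (fun g s hs => by
      simp only [Primes, mem_filter]
      have h1 : ∀ i, diff (b i) (c i) (H i + primorial y * g i) s =
          Pool.Agent.U918.SG.vl false 1 (b i).natAbs (arg (b i) s) (((H i : ℤ) - c i).toNat + primorial y * g i) :=
        fun i => (diff_eq (b i) (c i) x (H i) (primorial y * g i) s (hSb i s hs) (mem_Icc.1 (hS hs)).2 (a0 i)).2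
      simp only [h1]
      exact ⟨fun h => h.2, fun h => ⟨hs, h⟩⟩)
    (fun g s hs => by
      simp only [Sifted, mem_filter]
      have h1 : ∀ i, diff (b i) (c i) (H i) s =
          Pool.Agent.U918.SG.vl false 1 (b i).natAbs (arg (b i) s) (((H i : ℤ) - c i).toNat) :=
        fun i => (diff_eq (b i) (c i) x (H i) 0 s (hSb i s hs) (mem_Icc.1 (hS hs)).2 (a0 i)).2
      simp only [h1]
      exact ⟨fun h => h.2, fun h => ⟨hs, h⟩⟩)
  refine le_trans (le_of_eq ?_) key
  have h1 : ∏ _i : Fin r, ((Pool.Agent.U918.SG.dg 1 : ℝ) * (Pool.Agent.H373R2.T7.Vz y * Real.log x)) =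
      (2 * (V y * Real.log x)) ^ r := by
    rw [prod_const, card_univ, Fintype.card_fin, hd]
    push_cast
    rfl
  rw [h1]

end Pool.Agent.Results.MP_d9bc60_nt.SmallModuli
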